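import Pool.Agent.H61.HB.Stmts2

/-!
Project HB (MP_91403e_an), board hbg, row GRF: elementary facts.
-/

set_option autoImplicit false

namespace HB

namespace GRF

theorem sq_nonneg' (k : Z2) : 0 ≤ sq k := by unfold sq; positivity

theorem sq_cases (k : Z2) : (k = 0 ∧ sq k = 0) ∨ (k ≠ 0 ∧ 1 ≤ sq k) := by
  by_cases h : k = 0
  · left
    refine ⟨h, ?_⟩
    rw [h]
    simp [sq]
  · right
    refine ⟨h, ?_⟩
    have h1 : k.1 ≠ 0 ∨ k.2 ≠ 0 := by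
      by_contra h2
      push Not at h2
      exact h (Prod.ext h2.1 h2.2)
    unfold sq
    rcases h1 with h1 | h1
    · have h3 : (1 : ℤ) ≤ k.1 ^ 2 := by
        have := pow_pos (abs_pos.2 h1) 2
        rw [sq_abs] at this
        linarith
      have h4 : (1 : ℝ) ≤ (k.1 : ℝ) ^ 2 := by exact_mod_cast h3
      nlinarith [sq_nonneg (k.2 : ℝ)]
    · have h3 : (1 : ℤ) ≤ k.2 ^ 2 := by
        have := pow_pos (abs_pos.2 h1) 2
        rw [sq_abs] at this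
        linarith
      have h4 : (1 : ℝ) ≤ (k.2 : ℝ) ^ 2 := by exact_mod_cast h3
      nlinarith [sq_nonneg (k.1 : ℝ)]

theorem mem_iff (f : Z2 → ℂ) : MemS 2 f ↔ Summable fun k => (1 + sq k) ^ 2 * ‖f k‖ ^ 2 := by
  unfold MemS
  have h : (fun k => (1 + sq k) ^ (2 : ℝ) * ‖f k‖ ^ 2) =
      fun k => (1 + sq k) ^ 2 * ‖f k‖ ^ 2 := by
    funext k
    rw [Real.rpow_two]
  rw [h]

theorem sum0 {f : Z2 → ℂ} (hf : MemS 2 f) : Summable fun k => ‖f k‖ ^ 2 := by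
  rw [mem_iff] at hf
  refine hf.of_nonneg_of_le (fun k => by positivity) fun k => ?_
  have h1 := sq_nonneg' k
  nlinarith [sq_nonneg ‖f k‖, mul_nonneg h1 (sq_nonneg ‖f k‖),
    mul_nonneg (sq_nonneg (sq k)) (sq_nonneg ‖f k‖)]

theorem sum1 {f : Z2 → ℂ} (hf : MemS 2 f) : Summable fun k => sq k * ‖f k‖ ^ 2 := by
  rw [mem_iff] at hf
  refine hf.of_nonneg_of_le (fun k => mul_nonneg (sq_nonneg' k) (by positivity)) fun k => ?_
  have h1 := sq_nonneg' k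
  nlinarith [sq_nonneg ‖f k‖, mul_nonneg h1 (sq_nonneg ‖f k‖),
    mul_nonneg (sq_nonneg (sq k)) (sq_nonneg ‖f k‖)]

theorem sum2 {f : Z2 → ℂ} (hf : MemS 2 f) : Summable fun k => sq k ^ 2 * ‖f k‖ ^ 2 := by
  rw [mem_iff] at hf
  refine hf.of_nonneg_of_le (fun k => by positivity) fun k => ?_
  have h1 := sq_nonneg' k
  nlinarith [sq_nonneg ‖f k‖, mul_nonneg h1 (sq_nonneg ‖f k‖),
    mul_nonneg (sq_nonneg (sq k)) (sq_nonneg ‖f k‖)]

theorem off_le (f : Z2 → ℂ) (k : Z2) : ‖off f k‖ ^ 2 ≤ ‖f k‖ ^ 2 := by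
  unfold off
  split_ifs
  · rw [norm_zero]
    nlinarith [sq_nonneg ‖f k‖]
  · exact le_refl _

theorem off_div_le (f : Z2 → ℂ) (k : Z2) : ‖off f k‖ ^ 2 / sq k ≤ ‖off f k‖ ^ 2 := by
  rcases sq_cases k with ⟨h, h1⟩ | ⟨h, h1⟩
  · rw [h1, div_zero]
    positivity
  · exact div_le_self (by positivity) h1

theorem sum3 {f : Z2 → ℂ} (hf : MemS 2 f) : Summable fun k => ‖off f k‖ ^ 2 :=
  (sum0 hf).of_nonneg_of_le (fun k => by positivity) (off_le f)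

theorem sum4 {f : Z2 → ℂ} (hf : MemS 2 f) : Summable fun k => ‖off f k‖ ^ 2 / sq k :=
  (sum3 hf).of_nonneg_of_le (fun k => div_nonneg (by positivity) (sq_nonneg' k)) (off_div_le f)

theorem hm_nonneg (f : Z2 → ℂ) : 0 ≤ hmS f :=
  tsum_nonneg fun k => div_nonneg (by positivity) (sq_nonneg' k)

theorem hm_le {f : Z2 → ℂ} (hf : MemS 2 f) : hmS f ≤ flS f :=
  (sum4 hf).tsum_le_tsum (off_div_le f) (sum3 hf)

theorem fl_le {f : Z2 → ℂ} (hf : MemS 2 f) : flS f ≤ grS f := by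
  refine (sum3 hf).tsum_le_tsum (fun k => ?_) (sum1 hf)
  rcases sq_cases k with ⟨h, h1⟩ | ⟨h, h1⟩
  · rw [h1, zero_mul, h]
    simp [off]
  · refine (off_le f k).trans ?_
    nlinarith [sq_nonneg ‖f k‖]

theorem gr_le {f : Z2 → ℂ} (hf : MemS 2 f) : grS f ≤ dsS f := by
  refine (sum1 hf).tsum_le_tsum (fun k => ?_) (sum2 hf)
  rcases sq_cases k with ⟨h, h1⟩ | ⟨h, h1⟩
  · rw [h1]
    simp
  · refine mul_le_mul_of_nonneg_right ?_ (by positivity)
    nlinarith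

theorem quad {f : Z2 → ℂ} (hf : MemS 2 f) (t : ℝ) :
    0 ≤ hmS f * (t * t) + (-2 * flS f) * t + grS f := by
  have h1 : hmS f * (t * t) + (-2 * flS f) * t + grS f =
      ∑' k, (‖off f k‖ ^ 2 / sq k * (t * t) + ‖off f k‖ ^ 2 * (-2 * t) + sq k * ‖f k‖ ^ 2) := by
    rw [Summable.tsum_add ((sum4 hf).mul_right _ |>.add ((sum3 hf).mul_right _)) (sum1 hf),
      Summable.tsum_add ((sum4 hf).mul_right _) ((sum3 hf).mul_right _), tsum_mul_right,
      tsum_mul_right]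
    unfold hmS flS grS
    ring
  rw [h1]
  refine tsum_nonneg fun k => ?_
  rcases sq_cases k with ⟨h, h2⟩ | ⟨h, h2⟩
  · rw [h2, h]
    simp [off]
  · have h3 : off f k = f k := by simp [off, h]
    rw [h3]
    have h4 : 0 < sq k := by linarith
    have h5 : ‖f k‖ ^ 2 / sq k * (t * t) + ‖f k‖ ^ 2 * (-2 * t) + sq k * ‖f k‖ ^ 2 =
        ‖f k‖ ^ 2 * ((t - sq k) ^ 2 / sq k) := by
      field_simp
      ring
    rw [h5]
    positivity

theorem interp {f : Z2 → ℂ} (hf : MemS 2 f) : flS f ^ 2 ≤ hmS f * grS f := by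
  have h := discrim_le_zero (quad hf)
  unfold discrim at h
  nlinarith

theorem dvg_le (w : V) (l : Z2) : ‖dvg w l‖ ^ 2 ≤ sq l * ‖w 0 l‖ ^ 2 + sq l * ‖w 1 l‖ ^ 2 := by
  have h1 : ‖dvg w l‖ ≤ |(l.1 : ℝ)| * ‖w 0 l‖ + |(l.2 : ℝ)| * ‖w 1 l‖ := by
    unfold dvg
    rw [Fin.sum_univ_two]
    refine (norm_add_le _ _).trans ?_
    rw [norm_mul, norm_mul, norm_mul, norm_mul, Complex.norm_I, one_mul, one_mul,
      Complex.norm_real, Complex.norm_real]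
    simp [co]
  have h2 : ‖dvg w l‖ ^ 2 ≤ (|(l.1 : ℝ)| * ‖w 0 l‖ + |(l.2 : ℝ)| * ‖w 1 l‖) ^ 2 :=
    pow_le_pow_left₀ (norm_nonneg _) h1 2
  refine h2.trans ?_
  unfold sq
  have h3 : |(l.1 : ℝ)| ^ 2 = (l.1 : ℝ) ^ 2 := sq_abs _
  have h4 : |(l.2 : ℝ)| ^ 2 = (l.2 : ℝ) ^ 2 := sq_abs _
  rw [← h3, ← h4]
  nlinarith [sq_nonneg (|(l.1 : ℝ)| * ‖w 1 l‖ - |(l.2 : ℝ)| * ‖w 0 l‖)]

theorem weak {f : Z2 → ℂ} (hf : MemS 2 f) : hmS f + ‖f 0‖ ^ 2 ≤ 2 * nqS (-1) f := by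
  have h0 : HasSum (fun k : Z2 => if k = 0 then ‖f 0‖ ^ 2 else 0) (‖f 0‖ ^ 2) :=
    hasSum_ite_eq 0 _
  have hs : Summable fun k => (1 + sq k) ^ (-1 : ℝ) * ‖f k‖ ^ 2 := by
    refine (sum0 hf).of_nonneg_of_le (fun k => mul_nonneg
      (Real.rpow_nonneg (by linarith [sq_nonneg' k]) _) (by positivity)) fun k => ?_
    have h1 : (1 + sq k) ^ (-1 : ℝ) ≤ 1 := by
      rw [Real.rpow_neg_one]
      exact inv_le_one_of_one_le₀ (by linarith [sq_nonneg' k])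
    nlinarith [sq_nonneg ‖f k‖]
  have h2 : hmS f + ‖f 0‖ ^ 2 =
      ∑' k, (‖off f k‖ ^ 2 / sq k + if k = 0 then ‖f 0‖ ^ 2 else 0) := by
    rw [Summable.tsum_add (sum4 hf) h0.summable, h0.tsum_eq]
    rfl
  rw [h2]
  unfold nqS
  rw [← tsum_mul_left]
  refine Summable.tsum_le_tsum (fun k => ?_) ((sum4 hf).add h0.summable) (hs.mul_left 2)
  rcases sq_cases k with ⟨h, h3⟩ | ⟨h, h3⟩
  · rw [if_pos h, h3, h]
    simp [off]
    nlinarith [sq_nonneg ‖f 0‖]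
  · rw [if_neg h, add_zero, Real.rpow_neg_one]
    have h4 : off f k = f k := by simp [off, h]
    rw [h4]
    have h5 : 0 < sq k := by linarith
    have h6 : 1 / sq k ≤ 2 * (1 + sq k)⁻¹ := by
      rw [← div_eq_mul_inv, div_le_div_iff₀ h5 (by linarith)]
      linarith
    calc ‖f k‖ ^ 2 / sq k = 1 / sq k * ‖f k‖ ^ 2 := by ring
      _ ≤ 2 * (1 + sq k)⁻¹ * ‖f k‖ ^ 2 := mul_le_mul_of_nonneg_right h6 (by positivity)
      _ = 2 * ((1 + sq k)⁻¹ * ‖f k‖ ^ 2) := by ring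

theorem tri (a b : ℂ) : ‖b‖ ^ 2 ≤ 2 * ‖b - a‖ ^ 2 + 2 * ‖a‖ ^ 2 := by
  have h1 : ‖b‖ ≤ ‖b - a‖ + ‖a‖ := by
    have := norm_add_le (b - a) a
    rwa [sub_add_cancel] at this
  have h2 : ‖b‖ ^ 2 ≤ (‖b - a‖ + ‖a‖) ^ 2 := pow_le_pow_left₀ (norm_nonneg _) h1 2
  nlinarith [sq_nonneg (‖b - a‖ - ‖a‖)]

theorem gr_tri {f g : Z2 → ℂ} (hf : MemS 2 f) (hg : MemS 2 g) :
    grS g ≤ 2 * grS (g - f) + 2 * grS f := by
  have hs : Summable fun k => sq k * ‖(g - f) k‖ ^ 2 := by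
    refine (((sum1 hg).mul_left 2).add ((sum1 hf).mul_left 2)).of_nonneg_of_le
      (fun k => mul_nonneg (sq_nonneg' k) (by positivity)) fun k => ?_
    have h1 := tri (-f k) (g k - f k)
    have h2 : g k - f k - -f k = g k := by ring
    rw [h2, norm_neg] at h1
    have h3 := mul_le_mul_of_nonneg_left h1 (sq_nonneg' k)
    have h4 : (g - f) k = g k - f k := rfl
    rw [h4]
    linarith
  unfold grS
  rw [← tsum_mul_left, ← tsum_mul_left, ← Summable.tsum_add (hs.mul_left 2) ((sum1 hf).mul_left 2)]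
  refine Summable.tsum_le_tsum (fun k => ?_) (sum1 hg) ((hs.mul_left 2).add ((sum1 hf).mul_left 2))
  have h1 := mul_le_mul_of_nonneg_left (tri (f k) (g k)) (sq_nonneg' k)
  have h4 : (g - f) k = g k - f k := rfl
  rw [h4]
  linarith

end GRF

open GRF in
theorem grf_thm : GRFStmt := by
  refine ⟨fun f hf => ⟨sum0 hf, sum1 hf, sum2 hf, sum4 hf, sum3 hf, hm_nonneg f, hm_le hf,
    fl_le hf, gr_le hf, interp hf⟩, fun w hw => ?_, fun u v hu hv => ?_⟩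
  · have hs : Summable fun l => sq l * ‖w 0 l‖ ^ 2 + sq l * ‖w 1 l‖ ^ 2 :=
      (sum1 (hw 0)).add (sum1 (hw 1))
    have hd : Summable fun l => ‖dvg w l‖ ^ 2 :=
      hs.of_nonneg_of_le (fun l => by positivity) (dvg_le w)
    have hg : grd w = grS (w 0) + grS (w 1) := by unfold grd; rw [Fin.sum_univ_two]
    have hh : hm w = hmS (w 0) + hmS (w 1) := by unfold hm; rw [Fin.sum_univ_two]
    have hl : flu w = flS (w 0) + flS (w 1) := by unfold flu; rw [Fin.sum_univ_two]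
    have hq : dsq w = dsS (w 0) + dsS (w 1) := by unfold dsq; rw [Fin.sum_univ_two]
    have hm' : mu w = ‖w 0 0‖ ^ 2 + ‖w 1 0‖ ^ 2 := by unfold mu; rw [Fin.sum_univ_two]
    have hn : nsq (-1) w = nqS (-1) (w 0) + nqS (-1) (w 1) := by
      unfold nsq; rw [Fin.sum_univ_two]
    refine ⟨hd, ?_, ?_, ?_, ?_, ?_, ?_, ?_, ?_⟩
    · rw [hg]
      unfold grS
      rw [← Summable.tsum_add (sum1 (hw 0)) (sum1 (hw 1))]
      exact hd.tsum_le_tsum (dvg_le w) hs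
    · rw [hh]
      exact add_nonneg (hm_nonneg _) (hm_nonneg _)
    · rw [hh, hl]
      exact add_le_add (hm_le (hw 0)) (hm_le (hw 1))
    · rw [hl, hg]
      exact add_le_add (fl_le (hw 0)) (fl_le (hw 1))
    · rw [hg, hq]
      exact add_le_add (gr_le (hw 0)) (gr_le (hw 1))
    · have h : ∀ t : ℝ, 0 ≤ hm w * (t * t) + (-2 * flu w) * t + grd w := by
        intro t
        rw [hh, hl, hg]
        have h1 := quad (hw 0) t
        have h2 := quad (hw 1) t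
        linarith
      have h3 := discrim_le_zero h
      unfold discrim at h3
      nlinarith
    · rw [hm']
      positivity
    · rw [hh, hm', hn]
      have h1 := weak (hw 0)
      have h2 := weak (hw 1)
      linarith
  · have h1 := gr_tri (hu 0) (hv 0)
    have h2 := gr_tri (hu 1) (hv 1)
    unfold grd
    rw [Fin.sum_univ_two, Fin.sum_univ_two, Fin.sum_univ_two]
    have h3 : (v - u) 0 = v 0 - u 0 := rfl
    have h4 : (v - u) 1 = v 1 - u 1 := rfl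
    rw [h3, h4]
    linarith

end HB
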