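import Pool.Agent.H61.HB.Stmts4
import Pool.Agent.H93.HB.GRW
import Pool.Agent.H1.HB.STW

/-!
# Row BTS of the board `fnd`: Gronwall and continuity
-/

set_option autoImplicit false

namespace HB

open GR STW in
theorem bts_thm : BTSStmt := by
  intro T ν c X Q g X' hT hν hc hQc hgc hnn hX0 hdX hsmall
  have hXc : ContinuousOn X (Set.Icc 0 T) := fun t ht => (hdX t ht).1.continuousWithinAt
  have hgP := comp_cont hT hgc
  have hQP := comp_cont hT hQc
  have hder : ∀ t ∈ Set.Ioo 0 T, HasDerivAt X (X' t) t := fun t ht =>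
    (hdX t ⟨ht.1.le, ht.2.le⟩).1.hasDerivAt (Icc_mem_nhds ht.1 ht.2)
  have hg0 : ∀ r, 0 ≤ g (P T r) := fun r => (hnn _ (P_mem hT r)).2.2
  set H : ℝ → ℝ := fun t => ∫ r in (0 : ℝ)..t, g (P T r) with hH
  have hHd : ∀ t, HasDerivAt H (g (P T t)) t := fun t => prim hgP t
  have hHc : Continuous H := continuous_iff_continuousAt.2 fun t => (hHd t).continuousAt
  have hHT : H T = ∫ r in (0 : ℝ)..T, g r := int_eq g ⟨hT, le_rfl⟩
  rw [← hHT] at hsmall ⊢
  have hHmono : ∀ t ∈ Set.Icc 0 T, H t ≤ H T := by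
    intro t ht
    have h1 : H T = H t + ∫ r in t..T, g (P T r) :=
      (intervalIntegral.integral_add_adjacent_intervals (hgP.intervalIntegrable _ _)
        (hgP.intervalIntegrable _ _)).symm
    have h2 : 0 ≤ ∫ r in t..T, g (P T r) :=
      intervalIntegral.integral_nonneg ht.2 fun r _ => hg0 _
    linarith
  have hH0 : H 0 = 0 := intervalIntegral.integral_same
  -- Gronwall as long as `X` is small
  have hgr : ∀ a ∈ Set.Icc 0 T, (∀ r ∈ Set.Ioo 0 a, X r ≤ c ^ 2) →
      ∀ t ∈ Set.Icc 0 a, X t + 1 ≤ Real.exp (H t) := by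
    intro a ha hsm t ht
    have h1 := anti' (a := a) (fun r => (X r + 1) * Real.exp (-H r))
      (fun r => X' r * Real.exp (-H r) + (X r + 1) * (Real.exp (-H r) * (-g (P T r))))
      (((hXc.mono (Set.Icc_subset_Icc_right ha.2)).add continuousOn_const).mul
        (Real.continuous_exp.comp hHc.neg).continuousOn)
      (fun r hr => ((hder r ⟨hr.1, hr.2.trans_le ha.2⟩).add_const 1).mul ((hHd r).neg.exp))
      (fun r hr => by
        have hr' : r ∈ Set.Icc 0 T := ⟨hr.1.le, hr.2.le.trans ha.2⟩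
        have h2 := (hdX r hr').2 (hsm r hr)
        have h3 := mul_nonneg hν.le (hnn r hr').2.1
        rw [P_eq hr']
        have h4 : X' r * Real.exp (-H r) + (X r + 1) * (Real.exp (-H r) * (-g r)) =
            (X' r - g r * (X r + 1)) * Real.exp (-H r) := by ring
        rw [h4]
        exact mul_nonpos_of_nonpos_of_nonneg (by linarith) (Real.exp_pos _).le) t ht
    have h1' : (X t + 1) * Real.exp (-H t) ≤ (X 0 + 1) * Real.exp (-H 0) := h1
    rw [hH0, neg_zero, Real.exp_zero, mul_one, Real.exp_neg, ← div_eq_mul_inv,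
      div_le_iff₀ (Real.exp_pos _), hX0, zero_add, one_mul] at h1'
    exact h1'
  -- `X` is always small
  have hall : ∀ t ∈ Set.Icc 0 T, X t < c ^ 2 := by
    by_contra hcon
    push Not at hcon
    obtain ⟨t1, ht1, ht1'⟩ := hcon
    have hcl : IsCompact (Set.Icc 0 T ∩ X ⁻¹' Set.Ici (c ^ 2)) :=
      isCompact_Icc.of_isClosed_subset (hXc.preimage_isClosed_of_isClosed isClosed_Icc isClosed_Ici)
        Set.inter_subset_left
    obtain ⟨a, ⟨ha1, ha2⟩, ha3⟩ := hcl.exists_isLeast ⟨t1, ht1, ht1'⟩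
    have h1 := hgr a ha1 (fun r hr => by
      by_contra hc'
      push Not at hc'
      have h2 := ha3 ⟨⟨hr.1.le, hr.2.le.trans ha1.2⟩, hc'.le⟩
      exact absurd h2 (not_le.2 hr.2)) a ⟨ha1.1, le_rfl⟩
    have h2 : c ^ 2 ≤ X a := ha2
    have h3 := Real.exp_le_exp.2 (hHmono a ha1)
    linarith
  have hXle : ∀ t ∈ Set.Icc 0 T, X t + 1 ≤ Real.exp (H t) :=
    hgr T ⟨hT, le_rfl⟩ fun r hr => (hall r ⟨hr.1.le, hr.2.le⟩).le
  refine ⟨?_, ?_⟩
  · intro t ht
    have h1 := hXle t ht
    have h2 := Real.exp_le_exp.2 (hHmono t ht)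
    linarith
  -- the integral of `P`
  · have h1 := anti (T := T) (fun t => X t + ν * (∫ r in (0 : ℝ)..t, Q (P T r)) -
        Real.exp (H t))
      (fun t => X' t + ν * Q (P T t) - Real.exp (H t) * g (P T t))
      (fun t ht => ((hdX t ht).1.add (((prim hQP t).const_mul ν).hasDerivWithinAt)).sub
        ((hHd t).exp.hasDerivWithinAt))
      (fun t ht => by
        have h2 := (hdX t ht).2 (hall t ht).le
        have h3 := mul_le_mul_of_nonneg_left (hXle t ht) (hnn t ht).2.2
        rw [P_eq ht]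
        linarith) T ⟨hT, le_rfl⟩
    have h1' : X T + ν * (∫ r in (0 : ℝ)..T, Q (P T r)) - Real.exp (H T) ≤
        X 0 + ν * (∫ r in (0 : ℝ)..0, Q (P T r)) - Real.exp (H 0) := h1
    rw [intervalIntegral.integral_same, hH0, mul_zero, add_zero, Real.exp_zero, hX0,
      int_eq Q ⟨hT, le_rfl⟩] at h1'
    have h3 := (hnn T ⟨hT, le_rfl⟩).1
    linarith

end HB
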