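import Pool.Agent.H61.HB.Stmts5
import Pool.Agent.H1.HB.SCA

/-!
# Row SC3 of the board `fn3`: scaling of the norm `H^(-3/2)`
-/

set_option autoImplicit false

namespace HB

open SCA in
theorem sc3_thm : SC3Stmt := by
  intro n hn U
  have hn0 : (0 : ℝ) < n := by exact_mod_cast hn
  have hnorm : ‖(n : ℂ) ^ 3‖ = (n : ℝ) ^ 3 := by rw [norm_pow, Complex.norm_natCast]
  unfold HB.hn
  rw [Finset.mul_sum]
  refine Finset.sum_congr rfl fun j _ => ?_
  unfold hnS
  rw [← (e_inj hn).tsum_eq (f := fun k => ‖off (scl n U j) k‖ ^ 2 / (sq k * √(sq k))),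
    ← tsum_mul_left]
  · refine tsum_congr fun k => ?_
    have hsq : √(sq (e n k)) = (n : ℝ) * √(sq k) := by
      rw [sq_e, Real.sqrt_mul (by positivity), Real.sqrt_sq hn0.le]
    rw [hsq, sq_e, off_e hn]
    by_cases hk : k = 0
    · simp [off, hk]
    · unfold off
      rw [if_neg hk, if_neg hk]
      show ‖scl n U j (e n k)‖ ^ 2 / ((n : ℝ) ^ 2 * sq k * (n * √(sq k))) = _
      rw [scl_e hn, norm_mul, hnorm]
      by_cases hs0 : sq k = 0
      · rw [hs0]
        simp
      · have hs1 : √(sq k) ≠ 0 := by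
          intro h
          exact hs0 ((Real.sqrt_eq_zero (sq_nonneg' k)).1 h)
        field_simp
  · intro k hk
    by_contra hc
    apply hk
    show ‖off (scl n U j) k‖ ^ 2 / (sq k * √(sq k)) = 0
    have h1 : off (scl n U j) k = 0 := by
      unfold off
      split_ifs
      · rfl
      · exact scl_off U j hc
    rw [h1]
    simp

end HB
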